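import Mathlib
import Pool.Agent.W467.Assoc

/-! The smallest `p` such that `Δ ^ p Φ` is a polynomial map is `1`, for all `n ≥ 2`, `d ≥ 3`. -/

set_option autoImplicit false

namespace Pool.Agent.Results.MP_2a8a61_ag.PoleOrderOne

open MvPolynomial

/-- Exponent vectors of the monomials of degree `d` in `z_1, …, z_n`. -/
abbrev Mon (n d : ℕ) : Type := {β : Fin n →₀ ℕ // β.degree = d}

/-- The coefficients of a form `f` of degree `d` in `n` variables. -/
noncomputable def coeffs (n d : ℕ) (f : MvPolynomial (Fin n) ℂ) : Mon n d → ℂ :=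
  fun β => coeff β.1 f

/-- A form `f` is nondegenerate if the origin is the only common zero of its partial
derivatives, that is, the hypersurface `f = 0` has an isolated singularity at the origin. -/
def Nondegenerate {n : ℕ} (f : MvPolynomial (Fin n) ℂ) : Prop :=
  ∀ z : Fin n → ℂ, (∀ i, eval z (pderiv i f) = 0) → z = 0

/-- The Hessian determinant of `f`. -/
noncomputable def hessian {n : ℕ} (f : MvPolynomial (Fin n) ℂ) : MvPolynomial (Fin n) ℂ :=
  (Matrix.of fun i j => pderiv i (pderiv j f)).det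

/-- The ideal of `ℂ⟦z_1, …, z_n⟧` generated by the partial derivatives of `f`; the quotient by it
is the Milnor algebra of `f`. -/
noncomputable def jacobianIdeal {n : ℕ} (f : MvPolynomial (Fin n) ℂ) :
    Ideal (MvPowerSeries (Fin n) ℂ) :=
  Ideal.span (Set.range fun i => ((pderiv i f : MvPolynomial (Fin n) ℂ) : MvPowerSeries (Fin n) ℂ))

/-- `G` is the associated form `Φ(f)` of the form `f` of degree `d`: it is a form of degree
`n (d - 2)` whose value at each `w` is the scalar `c` such that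
`(w_1 z_1 + ⋯ + w_n z_n) ^ (n (d - 2))` is congruent to `c Hess(f)` modulo the partial
derivatives of `f`, in `ℂ⟦z_1, …, z_n⟧`. -/
def IsAssociatedForm (n d : ℕ) (f G : MvPolynomial (Fin n) ℂ) : Prop :=
  G.IsHomogeneous (n * (d - 2)) ∧ ∀ w : Fin n → ℂ,
    (((∑ i, C (w i) * X i) ^ (n * (d - 2)) - C (eval w G) * hessian f :
      MvPolynomial (Fin n) ℂ) : MvPowerSeries (Fin n) ℂ) ∈ jacobianIdeal f

/-- `Δ` is the discriminant of forms of degree `d` in `n` variables (it is unique up to a nonzero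
constant factor): an irreducible polynomial in the coefficients whose zeros are exactly the forms
which are not nondegenerate. -/
def IsDiscriminant (n d : ℕ) (Δ : MvPolynomial (Mon n d) ℂ) : Prop :=
  Irreducible Δ ∧ ∀ f : MvPolynomial (Fin n) ℂ, f.IsHomogeneous d →
    (eval (coeffs n d f) Δ ≠ 0 ↔ Nondegenerate f)

/-- `Δ ^ p Φ` extends to a morphism from forms of degree `d` to forms of degree `n (d - 2)`: on
nondegenerate forms `f`, the coefficients of `Δ(f) ^ p Φ(f)` are polynomials in the coefficients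
of `f`. -/
def Extends (n d : ℕ) (Δ : MvPolynomial (Mon n d) ℂ) (p : ℕ) : Prop :=
  ∃ P : Mon n (n * (d - 2)) → MvPolynomial (Mon n d) ℂ,
    ∀ f G : MvPolynomial (Fin n) ℂ, f.IsHomogeneous d → Nondegenerate f →
      IsAssociatedForm n d f G →
        ∀ α, eval (coeffs n d f) Δ ^ p * coeff α.1 G = eval (coeffs n d f) (P α)

open Pool.Agent.W467

theorem nondeg_iff {n : ℕ} (f : MvPolynomial (Fin n) ℂ) : Nondegenerate f ↔ ¬ AF.Degen f := by
  constructor
  · rintro h ⟨z, hz, hz0⟩
    exact hz (h z hz0)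
  · intro h z hz0
    by_contra hz
    exact h ⟨z, hz, hz0⟩

theorem isAF_iff {n d : ℕ} (hn : 2 ≤ n) (hd : 3 ≤ d) (f G : MvPolynomial (Fin n) ℂ)
    (hf : f.IsHomogeneous d) : IsAssociatedForm n d f G ↔ AF.IsAF n d f G := by
  have hm : d - 1 ≤ n * (d - 2) := by
    have := Nat.mul_le_mul_right (d - 2) hn
    omega
  refine and_congr Iff.rfl (forall_congr' (fun w => ?_))
  refine AF.mem_jacPS_iff f hf hm _ (IsHomogeneous.sub (AF.linPow_homog _ _) ?_)
  exact (AF.hess_homog f hf).C_mul _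

/-- For all `n ≥ 2` and `d ≥ 3`: the discriminant `Δ` exists, every nondegenerate form has exactly
one associated form `Φ(f)`, and the smallest positive integer `p` such that `Δ ^ p Φ` extends to a
morphism on all forms of degree `d` is `p(n, d) = 1`. -/
theorem result (n d : ℕ) (hn : 2 ≤ n) (hd : 3 ≤ d) :
    (∃ Δ, IsDiscriminant n d Δ) ∧
    (∀ f : MvPolynomial (Fin n) ℂ, f.IsHomogeneous d → Nondegenerate f →
      ∃! G, IsAssociatedForm n d f G) ∧
    ∀ Δ, IsDiscriminant n d Δ → IsLeast {p : ℕ | 1 ≤ p ∧ Extends n d Δ p} 1 := by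
  refine ⟨?_, fun f hf hnd => ?_, fun Δ hΔ => ⟨⟨le_rfl, ?_⟩, fun p hp => hp.1⟩⟩
  · obtain ⟨Δ, hirr, hΔ⟩ := AF.exists_disc hn hd
    exact ⟨Δ, hirr, fun f hf => by rw [nondeg_iff, ← hΔ f hf]; rfl⟩
  · obtain ⟨G, hG, huniq⟩ := AF.existsUnique_AF hn hd f hf ((nondeg_iff f).1 hnd)
    exact ⟨G, (isAF_iff hn hd f G hf).2 hG, fun G' hG' => huniq G' ((isAF_iff hn hd f G' hf).1 hG')⟩
  · have hvan : AF.VanDeg Δ := by
      intro f hf hdeg
      by_contra hne
      exact (nondeg_iff f).1 ((hΔ.2 f hf).1 hne) hdeg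
    obtain ⟨P, hP⟩ := AF.extends_one hn hd Δ hvan
    refine ⟨P, fun f G hf hnd hG α => ?_⟩
    rw [pow_one]
    exact hP f G hf ((nondeg_iff f).1 hnd) ((isAF_iff hn hd f G hf).1 hG) α

end Pool.Agent.Results.MP_2a8a61_ag.PoleOrderOne
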